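import Mathlib

set_option autoImplicit false

/-!
# Good endomorphisms of free associative algebras are bijective on all algebras of finite dimension

Let `K` be a field (of any characteristic), `n` a natural number and `A_n = K⟨x_1, …, x_n⟩` the free
associative algebra (`FreeAlgebra K (Fin n)`), `I` the ideal generated by the `x_i`; `I ^ m` is the span of the
monomials of degree at least `m` (`power`). An endomorphism `φ` is good (`IsGood`) if for all `m ≥ 1`
there are an endomorphism `ψ` and an automorphism `θ` with `φ = ψ θ` and `ψ (x_i) ≡ x_i` modulo `I ^ m`.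
The question is if all good endomorphisms are automorphisms.

An endomorphism `φ` gives, for all `K`-algebras `S`, the map `Φ_S : S^n → S^n`,
`B ↦ (φ (x_1) (B), …, φ (x_n) (B))`. For an automorphism this is a bijection, for all `S`.

**Theorem.** Let `φ` be a good endomorphism, `L` a field which is a `K`-algebra, and `S` an associative
`L`-algebra of finite dimension.

1. The Jacobian determinant of `Φ_d = Φ_S` for the matrices `S = M_d(L)` (of size `n d²`) is a constant
   different from zero.
2. `Φ_S` is injective.
3. For all `B` in `S^n` the elements `φ (x_i) (B)` generate the same `L`-algebra as the `B_i`. So `φ` is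
   surjective modulo all ideals of finite codimension of `K⟨x_1, …, x_n⟩` (`L = K`), in other
   words `φ (A_n)` is dense in `A_n` in the topology of these ideals.
4. If `L` is algebraically closed, or finite, then `Φ_S` is bijective.

So a good endomorphism cannot be distinguished from an automorphism by its action on the
representations of finite dimension. In the commutative case (`d = 1` here) the Jacobian condition 1 is
the hypothesis of the Jacobian conjecture, and the injectivity is not known. In the free case,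
over the complex numbers, results of free analysis (Pascoe, Augat), as far as I remember them, say
that a polynomial map which is injective for all `d` has a polynomial inverse; they would give
a positive answer to the question in characteristic zero. This is not used and not proved here.

The proof. 1: let `B` be a point, `t` a variable and consider the Jacobian determinant `p(t)` of `Φ_d` at
`t B`, over `L[t]`. If `φ = ψ θ` then by the chain rule `p(t)` is the product of the determinants
of `θ`, at another point over `L[t]`, and of `ψ`. The first is a unit of `L[t]`, since `θ` is an automorphism,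
so it is a constant `c ≠ 0`, and the second is congruent to one modulo `t ^ (m-1)`. If `m - 1` is larger
than the degree of `p` then `p = c`. 2: let `Φ_d (B) = Φ_d (B')`, and consider the point
`diag (B, B')` of `M_{2d}(L)^n`. The derivative of `Φ_{2d}` at this point maps the inner
derivation `x ↦ x T - T x`, `T = (0 1; 0 0)`, that is the off-diagonal blocks `B_i - B'_i`, to the
blocks `φ(x_i)(B) - φ(x_i)(B') = 0`; so `B = B'` by 1 for `2 d`. For other `S` we use the regular
representation. 4: the theorem of Ax and Grothendieck. 3: let `S'` be the algebra generated by the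
`C_i = φ(x_i)(B)`; if `L` is algebraically closed then `C = Φ(A)` for some `A` in `S'^n` by 4, and
`A = B` by 2. In general we extend the scalars to an algebraic closure of `L`.
-/

noncomputable section

namespace Pool.Agent.Results.MP_54c2ef_al.BijectiveOnMatrices

open Matrix Finset

/-- The generator `x_i` of the free associative algebra. -/
def gen (K : Type) [Field K] (n : ℕ) (i : Fin n) : FreeAlgebra K (Fin n) := FreeAlgebra.ι K i

/-- `I ^ m`: the span of the monomials of degree at least `m`. -/
def power (K : Type) [Field K] (n m : ℕ) : Submodule K (FreeAlgebra K (Fin n)) :=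
  Submodule.span K {a | ∃ l : List (Fin n), m ≤ l.length ∧ a = (l.map (gen K n)).prod}

/-- The endomorphism `φ` is good. -/
def IsGood {K : Type} [Field K] {n : ℕ}
    (φ : FreeAlgebra K (Fin n) →ₐ[K] FreeAlgebra K (Fin n)) : Prop :=
  ∀ m : ℕ, 1 ≤ m → ∃ (ψ : FreeAlgebra K (Fin n) →ₐ[K] FreeAlgebra K (Fin n))
    (θ : FreeAlgebra K (Fin n) ≃ₐ[K] FreeAlgebra K (Fin n)),
    (∀ a, φ a = ψ (θ a)) ∧ ∀ i, ψ (gen K n i) - gen K n i ∈ power K n m

/-- The value of the noncommutative polynomial `f` at the matrices `B_1, …, B_n`. -/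
def value {K R ι : Type} [Field K] {n : ℕ} [CommRing R] [Algebra K R] [Fintype ι] [DecidableEq ι]
    (B : Fin n → Matrix ι ι R) (f : FreeAlgebra K (Fin n)) : Matrix ι ι R :=
  FreeAlgebra.lift K B f

section lemmas

variable {K : Type} [Field K] {n : ℕ} {R : Type} [CommRing R] [Algebra K R]
  {ι : Type} [Fintype ι] [DecidableEq ι]


/-- The homomorphism `f ↦ f (B + ε H)` to the matrices over the dual numbers, `M ⊕ M ε`. -/
def dl (B H : Fin n → Matrix ι ι R) : (FreeAlgebra K (Fin n)) →ₐ[K] TrivSqZeroExt (Matrix ι ι R) (Matrix ι ι R) :=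
  FreeAlgebra.lift K fun i => TrivSqZeroExt.inl (B i) + TrivSqZeroExt.inr (H i)

/-- The derivative of `f` at `B` in the direction `H`: the coefficient of `ε` in `f (B + ε H)`. -/
def dd (B H : Fin n → Matrix ι ι R) (f : (FreeAlgebra K (Fin n))) : Matrix ι ι R := (dl B H f).snd

lemma value_gen (B : Fin n → Matrix ι ι R) (i : Fin n) : value B (gen K n i) = B i := by
  rw [value, gen, FreeAlgebra.lift_ι_apply]

lemma dl_gen (B H : Fin n → Matrix ι ι R) (i : Fin n) :
    dl B H (gen K n i) = TrivSqZeroExt.inl (B i) + TrivSqZeroExt.inr (H i) := by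
  rw [dl, gen, FreeAlgebra.lift_ι_apply]

lemma dl_fst (B H : Fin n → Matrix ι ι R) (f : (FreeAlgebra K (Fin n))) : (dl B H f).fst = value B f := by
  have h : (TrivSqZeroExt.fstHom K (Matrix ι ι R) (Matrix ι ι R)).comp (dl B H) =
      FreeAlgebra.lift K B := by
    apply FreeAlgebra.hom_ext
    funext i
    change (dl B H (gen K n i)).fst = value B (gen K n i)
    rw [dl_gen, value_gen]
    simp
  exact DFunLike.congr_fun h f

lemma dd_mul (B H : Fin n → Matrix ι ι R) (f g : (FreeAlgebra K (Fin n))) :
    dd B H (f * g) = value B f * dd B H g + dd B H f * value B g := by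
  rw [dd, map_mul, TrivSqZeroExt.snd_mul, dl_fst, dl_fst]
  rfl

lemma dd_add (B H : Fin n → Matrix ι ι R) (f g : (FreeAlgebra K (Fin n))) :
    dd B H (f + g) = dd B H f + dd B H g := by
  rw [dd, map_add, TrivSqZeroExt.snd_add]
  rfl

lemma dd_sub (B H : Fin n → Matrix ι ι R) (f g : (FreeAlgebra K (Fin n))) :
    dd B H (f - g) = dd B H f - dd B H g := by
  rw [dd, map_sub, TrivSqZeroExt.snd_sub]
  rfl

lemma dd_gen (B H : Fin n → Matrix ι ι R) (i : Fin n) : dd B H (gen K n i) = H i := by
  rw [dd, dl_gen]
  simp

lemma dd_const (B H : Fin n → Matrix ι ι R) (c : K) :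
    dd B H (algebraMap K (FreeAlgebra K (Fin n)) c) = 0 := by
  rw [dd, AlgHom.commutes]
  rfl

lemma value_mul (B : Fin n → Matrix ι ι R) (f g : (FreeAlgebra K (Fin n))) :
    value B (f * g) = value B f * value B g := map_mul _ _ _

lemma value_add (B : Fin n → Matrix ι ι R) (f g : (FreeAlgebra K (Fin n))) :
    value B (f + g) = value B f + value B g := map_add _ _ _

/-- The chain rule. -/
lemma dl_comp (B H : Fin n → Matrix ι ι R) (ψ : (FreeAlgebra K (Fin n)) →ₐ[K] (FreeAlgebra K (Fin n))) (f : (FreeAlgebra K (Fin n))) :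
    dl B H (ψ f) = dl (fun i => value B (ψ (gen K n i))) (fun i => dd B H (ψ (gen K n i))) f := by
  have h : (dl B H).comp ψ = dl (fun i => value B (ψ (gen K n i)))
      (fun i => dd B H (ψ (gen K n i))) := by
    apply FreeAlgebra.hom_ext
    funext i
    change dl B H (ψ (gen K n i)) = dl _ _ (gen K n i)
    rw [dl_gen, ← dl_fst B H, dd, TrivSqZeroExt.inl_fst_add_inr_snd_eq]
  exact DFunLike.congr_fun h f

lemma dd_comp (B H : Fin n → Matrix ι ι R) (ψ : (FreeAlgebra K (Fin n)) →ₐ[K] (FreeAlgebra K (Fin n))) (f : (FreeAlgebra K (Fin n))) :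
    dd B H (ψ f) = dd (fun i => value B (ψ (gen K n i))) (fun i => dd B H (ψ (gen K n i))) f := by
  rw [dd, dl_comp]
  rfl

lemma dd_smul (B H : Fin n → Matrix ι ι R) (r : R) (f : (FreeAlgebra K (Fin n))) :
    dd B (fun i => r • H i) f = r • dd B H f := by
  induction f with
  | grade0 c =>
    rw [dd_const, dd_const, smul_zero]
  | grade1 i => exact (dd_gen _ _ i).trans (congrArg (r • ·) (dd_gen B H i).symm)
  | mul f g hf hg => rw [dd_mul, dd_mul, hf, hg, smul_add, mul_smul_comm, smul_mul_assoc]
  | add f g hf hg => rw [dd_add, dd_add, hf, hg, smul_add]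

lemma dd_sum {J : Type} (s : Finset J) (B : Fin n → Matrix ι ι R)
    (H : J → Fin n → Matrix ι ι R) (f : (FreeAlgebra K (Fin n))) :
    dd B (fun i => ∑ j ∈ s, H j i) f = ∑ j ∈ s, dd B (H j) f := by
  induction f with
  | grade0 c => simp [dd_const]
  | grade1 i =>
    refine (dd_gen _ _ i).trans (Finset.sum_congr rfl fun j _ => ?_)
    exact (dd_gen B (H j) i).symm
  | mul f g hf hg =>
    simp only [dd_mul, hf, hg, Finset.mul_sum, Finset.sum_mul, Finset.sum_add_distrib]
  | add f g hf hg => simp only [dd_add, hf, hg, Finset.sum_add_distrib]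

/-- The basis of `M_ι(R)^n`: the matrix unit `(p.2.1, p.2.2)` at the place `p.1`, and zero elsewhere. -/
def el (R : Type) [CommRing R] (p : Fin n × ι × ι) : Fin n → Matrix ι ι R :=
  fun i => if i = p.1 then Matrix.single p.2.1 p.2.2 1 else 0

lemma dd_expand (B H : Fin n → Matrix ι ι R) (f : (FreeAlgebra K (Fin n))) (a b : ι) :
    dd B H f a b = ∑ p : Fin n × ι × ι, dd B (el R p) f a b * H p.1 p.2.1 p.2.2 := by
  have h1 : H = fun i => ∑ p : Fin n × ι × ι, (H p.1 p.2.1 p.2.2 • el R p i) := by
    funext i
    ext a b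
    rw [Matrix.sum_apply, Finset.sum_eq_single (i, a, b)]
    · simp [el]
    · rintro ⟨j, c, d⟩ _ h
      by_cases hj : i = j
      · subst hj
        have h2 : ¬ (c = a ∧ d = b) := by
          rintro ⟨rfl, rfl⟩
          exact h rfl
        simp [el, h2]
      · simp [el, hj]
    · intro h
      exact absurd (Finset.mem_univ _) h
  conv_lhs => rw [h1]
  rw [dd_sum, Matrix.sum_apply]
  refine Finset.sum_congr rfl fun p _ => ?_
  rw [dd_smul, Matrix.smul_apply, smul_eq_mul, mul_comm]

/-- The Jacobian matrix of the map `B ↦ (φ (x_1) (B), …, φ (x_n) (B))` at `B`, of size `n |ι|²`. -/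
def jac (B : Fin n → Matrix ι ι R) (φ : (FreeAlgebra K (Fin n)) →ₐ[K] (FreeAlgebra K (Fin n))) :
    Matrix (Fin n × ι × ι) (Fin n × ι × ι) R :=
  fun p q => dd B (el R q) (φ (gen K n p.1)) p.2.1 p.2.2

lemma jac_comp (B : Fin n → Matrix ι ι R) (φ ψ θ : (FreeAlgebra K (Fin n)) →ₐ[K] (FreeAlgebra K (Fin n))) (h : ∀ a, φ a = ψ (θ a)) :
    jac B φ = jac (fun i => value B (ψ (gen K n i))) θ * jac B ψ := by
  ext p q
  rw [jac, h, dd_comp, dd_expand, Matrix.mul_apply]
  rfl

lemma jac_id (B : Fin n → Matrix ι ι R) : jac B (AlgHom.id K (FreeAlgebra K (Fin n))) = 1 := by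
  ext ⟨i, a, b⟩ ⟨j, c, d⟩
  rw [jac, AlgHom.id_apply, dd_gen, el, Matrix.one_apply]
  by_cases hj : i = j
  · subst hj
    by_cases h2 : c = a ∧ d = b
    · obtain ⟨rfl, rfl⟩ := h2
      simp
    · have h3 : ¬ ((i, a, b) = (i, c, d)) := by
        intro h
        apply h2
        simp only [Prod.mk.injEq, true_and] at h
        exact ⟨h.1.symm, h.2.symm⟩
      simp only [if_true, Matrix.single_apply, h2, if_false, h3]
  · have h3 : ¬ ((i, a, b) = (j, c, d)) := by
      intro h
      exact hj (congrArg Prod.fst h)
    simp only [if_neg hj, Matrix.zero_apply, if_neg h3]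

lemma isUnit_jac (B : Fin n → Matrix ι ι R) (θ : (FreeAlgebra K (Fin n)) ≃ₐ[K] (FreeAlgebra K (Fin n))) :
    IsUnit (jac B (θ : (FreeAlgebra K (Fin n)) →ₐ[K] (FreeAlgebra K (Fin n)))).det := by
  have h := jac_comp B (AlgHom.id K (FreeAlgebra K (Fin n))) (θ : (FreeAlgebra K (Fin n)) →ₐ[K] (FreeAlgebra K (Fin n))) (θ.symm : (FreeAlgebra K (Fin n)) →ₐ[K] (FreeAlgebra K (Fin n))) fun a =>
    (θ.apply_symm_apply a).symm
  rw [jac_id] at h
  have h2 := congrArg Matrix.det h
  rw [Matrix.det_one, Matrix.det_mul] at h2
  exact IsUnit.of_mul_eq_one _ (by rw [mul_comm]; exact h2.symm)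

/-- The values under a homomorphism of the coefficients. -/
lemma dl_map {R' : Type} [CommRing R'] [Algebra K R'] (σ : R →ₐ[K] R')
    (B H : Fin n → Matrix ι ι R) (f : (FreeAlgebra K (Fin n))) :
    value (fun i => (B i).map σ) f = (value B f).map σ ∧
    dd (fun i => (B i).map σ) (fun i => (H i).map σ) f = (dd B H f).map σ := by
  induction f with
  | grade0 c =>
    refine ⟨?_, ?_⟩
    · rw [value, value, AlgHom.commutes, AlgHom.commutes]
      ext a b
      rw [Matrix.map_apply, Matrix.algebraMap_matrix_apply, Matrix.algebraMap_matrix_apply]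
      split_ifs
      · exact (σ.commutes c).symm
      · exact (map_zero σ).symm
    · rw [dd_const, dd_const]
      ext a b
      rw [Matrix.map_apply, Matrix.zero_apply, Matrix.zero_apply, map_zero]
  | grade1 i =>
    refine ⟨?_, ?_⟩
    · exact (value_gen _ i).trans (congrArg (fun M : Matrix ι ι R => M.map σ) (value_gen B i).symm)
    · exact (dd_gen _ _ i).trans (congrArg (fun M : Matrix ι ι R => M.map σ) (dd_gen B H i).symm)
  | mul f g hf hg =>
    have h1 : ∀ M N : Matrix ι ι R, (M * N).map σ = M.map σ * N.map σ := fun M N =>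
      Matrix.map_mul (f := (σ : R →+* R'))
    have h2 : ∀ M N : Matrix ι ι R, (M + N).map σ = M.map σ + N.map σ := fun M N => by
      ext a b
      simp
    refine ⟨?_, ?_⟩
    · rw [value_mul, value_mul, hf.1, hg.1, h1]
    · rw [dd_mul, dd_mul, hf.1, hg.1, hf.2, hg.2, h2, h1, h1]
  | add f g hf hg =>
    have h2 : ∀ M N : Matrix ι ι R, (M + N).map σ = M.map σ + N.map σ := fun M N => by
      ext a b
      simp
    exact ⟨by rw [value_add, value_add, hf.1, hg.1, h2], by
      rw [dd_add, dd_add, hf.2, hg.2, h2]⟩

lemma jac_map {R' : Type} [CommRing R'] [Algebra K R'] (σ : R →ₐ[K] R')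
    (B : Fin n → Matrix ι ι R) (φ : (FreeAlgebra K (Fin n)) →ₐ[K] (FreeAlgebra K (Fin n))) :
    jac (fun i => (B i).map σ) φ = (jac B φ).map σ := by
  ext p q
  rw [Matrix.map_apply, jac, jac]
  have h1 : el R' q = fun i : Fin n => (el R q i).map σ := by
    funext i
    ext a b
    rw [Matrix.map_apply, el, el]
    split_ifs
    · rw [Matrix.single_apply, Matrix.single_apply]
      split_ifs
      · exact (map_one σ).symm
      · exact (map_zero σ).symm
    · exact (map_zero σ).symm
  rw [h1, (dl_map σ B (el R q) _).2, Matrix.map_apply]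

/-- Terms of high degree. -/
lemma dd_power (t : R) (B H : Fin n → Matrix ι ι R) (m : ℕ) (f : (FreeAlgebra K (Fin n))) (hf : f ∈ power K n m) :
    ∃ M : Matrix ι ι R, t • dd (fun i => t • B i) H f = t ^ m • M := by
  have hl : ∀ l : List (Fin n), (∃ M : Matrix ι ι R,
      value (fun i => t • B i) ((l.map (gen K n)).prod) = t ^ l.length • M) ∧
      ∃ M : Matrix ι ι R, t • dd (fun i => t • B i) H ((l.map (gen K n)).prod) =
        t ^ l.length • M := by
    intro l
    induction l with
    | nil =>
      refine ⟨⟨1, ?_⟩, ⟨0, ?_⟩⟩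
      · rw [List.map_nil, List.prod_nil, List.length_nil, pow_zero, one_smul]
        exact map_one _
      · rw [List.map_nil, List.prod_nil, smul_zero, ← map_one (algebraMap K (FreeAlgebra K (Fin n))), dd_const,
          smul_zero]
    | cons i l ih =>
      obtain ⟨⟨M, hM⟩, ⟨M', hM'⟩⟩ := ih
      refine ⟨⟨B i * M, ?_⟩, ⟨B i * M' + H i * M, ?_⟩⟩
      · rw [List.map_cons, List.prod_cons, value_mul, hM, value_gen, List.length_cons,
          smul_mul_assoc, mul_smul_comm, smul_smul, pow_succ']
      · rw [List.map_cons, List.prod_cons, dd_mul, hM, value_gen, dd_gen, List.length_cons,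
          smul_add, smul_mul_assoc, ← mul_smul_comm, hM', mul_smul_comm, mul_smul_comm, smul_smul,
          smul_smul, ← smul_add, pow_succ']
  induction hf using Submodule.span_induction with
  | mem f h =>
    obtain ⟨l, hlm, rfl⟩ := h
    obtain ⟨M, hM⟩ := (hl l).2
    refine ⟨t ^ (l.length - m) • M, ?_⟩
    rw [hM, smul_smul, ← pow_add, Nat.add_sub_cancel' hlm]
  | zero =>
    refine ⟨0, ?_⟩
    rw [← map_zero (algebraMap K (FreeAlgebra K (Fin n))), dd_const, smul_zero, smul_zero]
  | add f g _ _ hf hg =>
    obtain ⟨M, hM⟩ := hf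
    obtain ⟨M', hM'⟩ := hg
    exact ⟨M + M', by rw [dd_add, smul_add, hM, hM', smul_add]⟩
  | smul c f _ hf =>
    obtain ⟨M, hM⟩ := hf
    refine ⟨algebraMap K R c • M, ?_⟩
    have h1 : c • f = algebraMap K (FreeAlgebra K (Fin n)) c * f := Algebra.smul_def c f
    have h2 : value (fun i => t • B i) (algebraMap K (FreeAlgebra K (Fin n)) c) =
        algebraMap K R c • (1 : Matrix ι ι R) := by
      rw [value, AlgHom.commutes]
      ext a b
      rw [Matrix.algebraMap_matrix_apply, Matrix.smul_apply, Matrix.one_apply]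
      split_ifs <;> simp
    rw [h1, dd_mul, dd_const, zero_mul, add_zero, h2, smul_mul_assoc, one_mul, smul_comm, hM,
      smul_comm]

end lemmas

section field

variable {K : Type} [Field K] {n : ℕ} {L : Type} [Field L] [Algebra K L]
  {ι : Type} [Fintype ι] [DecidableEq ι]


open Polynomial in
/-- The determinant of the Jacobian matrix is a constant. -/
theorem det_jac {φ : (FreeAlgebra K (Fin n)) →ₐ[K] (FreeAlgebra K (Fin n))} (hφ : IsGood φ) (B : Fin n → Matrix ι ι L) :
    (jac B φ).det = (jac (0 : Fin n → Matrix ι ι L) φ).det ∧ (jac B φ).det ≠ 0 := by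
  classical
  let BX : Fin n → Matrix ι ι L[X] := fun i => (X : L[X]) • (B i).map C
  set p : L[X] := (jac BX φ).det with hp
  obtain ⟨ψ, θ, h1, h2⟩ := hφ (p.natDegree + 2) (by omega)
  have h3 : p = (jac (fun i => value BX (ψ (gen K n i))) (θ : (FreeAlgebra K (Fin n)) →ₐ[K] (FreeAlgebra K (Fin n)))).det *
      (jac BX ψ).det := by
    rw [hp, jac_comp BX φ ψ (θ : (FreeAlgebra K (Fin n)) →ₐ[K] (FreeAlgebra K (Fin n))) h1, Matrix.det_mul]
  obtain ⟨c, hc, hu⟩ := Polynomial.isUnit_iff.1
    (isUnit_jac (fun i => value BX (ψ (gen K n i))) θ)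
  -- the factor `ψ`
  have h4 : (X : L[X]) ^ (p.natDegree + 1) ∣ (jac BX ψ).det - 1 := by
    let π := Ideal.Quotient.mk (Ideal.span {(X : L[X]) ^ (p.natDegree + 1)})
    have h5 : π.mapMatrix (jac BX ψ) = 1 := by
      ext u v
      have h6 : (jac BX ψ) u v - (1 : Matrix (Fin n × ι × ι) (Fin n × ι × ι) L[X]) u v =
          dd BX (el L[X] v) (ψ (gen K n u.1) - gen K n u.1) u.2.1 u.2.2 := by
        rw [← jac_id (K := K) BX, jac, jac, dd_sub, Matrix.sub_apply]
        rfl
      obtain ⟨M, hM⟩ := dd_power (X : L[X]) (fun i => (B i).map C) (el L[X] v) (p.natDegree + 2)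
        _ (h2 u.1)
      have h7 := congrFun (congrFun hM u.2.1) u.2.2
      rw [Matrix.smul_apply, Matrix.smul_apply, smul_eq_mul, smul_eq_mul, pow_succ' _
        (p.natDegree + 1), mul_assoc] at h7
      have h8 := mul_left_cancel₀ Polynomial.X_ne_zero h7
      have h9 : (jac BX ψ) u v - (1 : Matrix (Fin n × ι × ι) (Fin n × ι × ι) L[X]) u v =
          X ^ (p.natDegree + 1) * M u.2.1 u.2.2 := h6.trans h8
      rw [RingHom.mapMatrix_apply, Matrix.map_apply]
      have h10 : π ((jac BX ψ) u v) = π ((1 : Matrix (Fin n × ι × ι) (Fin n × ι × ι) L[X]) u v) := by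
        rw [← sub_eq_zero, ← map_sub, h9]
        exact Ideal.Quotient.eq_zero_iff_mem.2 (Ideal.mem_span_singleton.2 ⟨_, rfl⟩)
      rw [h10, Matrix.one_apply, Matrix.one_apply]
      split_ifs
      · exact map_one π
      · exact map_zero π
    rw [← Ideal.mem_span_singleton, ← Ideal.Quotient.eq_zero_iff_mem]
    change π _ = 0
    rw [map_sub, map_one, RingHom.map_det, h5, Matrix.det_one, sub_self]
  have h5 : (X : L[X]) ^ (p.natDegree + 1) ∣ p - C c := by
    have h6 : p - C c = C c * ((jac BX ψ).det - 1) := by
      rw [h3, ← hu]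
      ring
    rw [h6]
    exact Dvd.dvd.mul_left h4 _
  have h6 : p = C c := by
    by_contra hne
    have h7 := Polynomial.natDegree_le_of_dvd h5 (sub_ne_zero.2 hne)
    rw [Polynomial.natDegree_X_pow, Polynomial.natDegree_sub_C] at h7
    omega
  have key : ∀ t : L, (jac (fun i => t • B i) φ).det = c := by
    intro t
    let σ : L[X] →ₐ[K] L := (Polynomial.aeval t).restrictScalars K
    have h7 : (fun i => t • B i) = fun i => (BX i).map σ := by
      funext i
      ext a b
      change t * B i a b = Polynomial.aeval t (X * C (B i a b))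
      rw [map_mul, Polynomial.aeval_X, Polynomial.aeval_C]
      rfl
    rw [h7, jac_map σ BX φ]
    have h8 : (jac BX φ).map σ = σ.toRingHom.mapMatrix (jac BX φ) := rfl
    rw [h8, ← RingHom.map_det, ← hp, h6]
    change Polynomial.aeval t (C c) = c
    rw [Polynomial.aeval_C]
    rfl
  have k1 := key 1
  have k0 := key 0
  simp only [one_smul] at k1
  have h9 : (fun i => (0 : L) • B i) = (0 : Fin n → Matrix ι ι L) := by
    funext i
    rw [zero_smul]
    rfl
  rw [h9] at k0
  exact ⟨k1.trans k0.symm, by rw [show (jac B φ).det = c from k1]; exact hc.ne_zero⟩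

/-- The derivative is injective. -/
theorem dd_inj {φ : (FreeAlgebra K (Fin n)) →ₐ[K] (FreeAlgebra K (Fin n))} (hφ : IsGood φ) (B H : Fin n → Matrix ι ι L)
    (h : ∀ i, dd B H (φ (gen K n i)) = 0) : H = 0 := by
  have h1 : (jac B φ).mulVec (fun p : Fin n × ι × ι => H p.1 p.2.1 p.2.2) = 0 := by
    funext p
    have h2 := dd_expand B H (φ (gen K n p.1)) p.2.1 p.2.2
    rw [h] at h2
    exact h2.symm
  have h2 := Matrix.eq_zero_of_mulVec_eq_zero (det_jac hφ B).2 h1
  funext i
  ext a b
  exact congrFun h2 (i, a, b)

/-- Values at block matrices. -/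
lemma value_blocks {d : Type} [Fintype d] [DecidableEq d] (B B' : Fin n → Matrix d d L) (f : (FreeAlgebra K (Fin n))) :
    value (fun i => fromBlocks (B i) 0 0 (B' i)) f = fromBlocks (value B f) 0 0 (value B' f) := by
  induction f with
  | grade0 c =>
    rw [value, value, value, AlgHom.commutes, AlgHom.commutes, AlgHom.commutes]
    ext (a | a) (b | b) <;> simp [Matrix.algebraMap_matrix_apply]
  | grade1 i =>
    exact (value_gen _ i).trans (by
      rw [← value_gen (K := K) B i, ← value_gen (K := K) B' i]
      rfl)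
  | mul f g hf hg => rw [value_mul, value_mul, value_mul, hf, hg, fromBlocks_multiply]; simp
  | add f g hf hg => rw [value_add, value_add, value_add, hf, hg, fromBlocks_add]; simp

/-- Inner derivations. -/
lemma dd_inner (B : Fin n → Matrix ι ι L) (T : Matrix ι ι L) (f : (FreeAlgebra K (Fin n))) :
    dd B (fun i => B i * T - T * B i) f = value B f * T - T * value B f := by
  induction f with
  | grade0 c =>
    rw [dd_const, value, AlgHom.commutes]
    exact (sub_eq_zero.2 (Algebra.commutes c T)).symm
  | grade1 i =>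
    refine (dd_gen _ _ i).trans ?_
    rw [← value_gen (K := K) B i]
    rfl
  | mul f g hf hg =>
    rw [dd_mul, value_mul, hf, hg]
    noncomm_ring
  | add f g hf hg =>
    rw [dd_add, value_add, hf, hg]
    noncomm_ring

/-- The map is injective. -/
theorem injective {φ : (FreeAlgebra K (Fin n)) →ₐ[K] (FreeAlgebra K (Fin n))} (hφ : IsGood φ) {d : Type} [Fintype d] [DecidableEq d] :
    Function.Injective fun (B : Fin n → Matrix d d L) i => value B (φ (gen K n i)) := by
  intro B B' h
  let T : Matrix (d ⊕ d) (d ⊕ d) L := fromBlocks 0 1 0 0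
  let BB : Fin n → Matrix (d ⊕ d) (d ⊕ d) L := fun i => fromBlocks (B i) 0 0 (B' i)
  have h1 : (fun i => BB i * T - T * BB i) = 0 := by
    refine dd_inj hφ BB _ fun i => ?_
    rw [dd_inner, value_blocks]
    have h2 : value B (φ (gen K n i)) = value B' (φ (gen K n i)) := congrFun h i
    rw [h2]
    simp [T, fromBlocks_multiply]
  funext i
  have h2 := congrFun h1 i
  simp only [BB, T, fromBlocks_multiply, Pi.zero_apply] at h2
  ext a b
  have h3 := congrFun (congrFun h2 (Sum.inl a)) (Sum.inr b)
  simp at h3
  exact sub_eq_zero.1 h3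

/-- The map is surjective over algebraically closed fields. -/
theorem surjective [IsAlgClosed L] {φ : (FreeAlgebra K (Fin n)) →ₐ[K] (FreeAlgebra K (Fin n))} (hφ : IsGood φ) {d : Type} [Fintype d]
    [DecidableEq d] :
    Function.Surjective fun (B : Fin n → Matrix d d L) i => value B (φ (gen K n i)) := by
  classical
  let G : Fin n → Matrix d d (MvPolynomial (Fin n × d × d) L) := fun i =>
    Matrix.of fun a b => MvPolynomial.X (i, a, b)
  let ps : Fin n × d × d → MvPolynomial (Fin n × d × d) L := fun u =>
    value G (φ (gen K n u.1)) u.2.1 u.2.2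
  have hev : ∀ (v : Fin n × d × d → L) (u : Fin n × d × d), MvPolynomial.eval v (ps u) =
      value (fun i => Matrix.of fun a b => v (i, a, b)) (φ (gen K n u.1)) u.2.1 u.2.2 := by
    intro v u
    let σ : MvPolynomial (Fin n × d × d) L →ₐ[K] L :=
      (MvPolynomial.aeval v).restrictScalars K
    have h1 := (dl_map σ G 0 (φ (gen K n u.1))).1
    have h2 : (fun i => (G i).map σ) = fun i => Matrix.of fun a b => v (i, a, b) := by
      funext i
      ext a b
      change MvPolynomial.aeval v (MvPolynomial.X (i, a, b)) = _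
      rw [MvPolynomial.aeval_X]
      rfl
    rw [← h2, h1, Matrix.map_apply]
    rfl
  have hinj : Function.Injective fun (v : Fin n × d × d → L) u => MvPolynomial.eval v (ps u) := by
    intro v v' h
    have h1 := injective (L := L) hφ (d := d)
      (a₁ := fun i => Matrix.of fun a b => v (i, a, b))
      (a₂ := fun i => Matrix.of fun a b => v' (i, a, b)) (by
        funext i
        ext a b
        have h2 := congrFun h (i, a, b)
        simp only [hev] at h2
        exact h2)
    funext u
    exact congrFun (congrFun (congrFun h1 u.1) u.2.1) u.2.2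
  have hsur := ax_grothendieck_univ ps hinj
  intro D
  obtain ⟨v, hv⟩ := hsur fun u => D u.1 u.2.1 u.2.2
  refine ⟨fun i => Matrix.of fun a b => v (i, a, b), ?_⟩
  funext i
  ext a b
  have h2 := congrFun hv (i, a, b)
  simp only [hev] at h2
  exact h2

end field

/-- The value of the noncommutative polynomial `f` at the elements `B_1, …, B_n` of an algebra. -/
def valueIn {K S : Type} [Field K] {n : ℕ} [Ring S] [Algebra K S] (B : Fin n → S)
    (f : FreeAlgebra K (Fin n)) : S :=
  FreeAlgebra.lift K B f

section algebra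

/-- The regular representation. -/
lemma value_left {K : Type} [Field K] {n : ℕ} {L : Type} [Field L] [Algebra K L]
    {S : Type} [Ring S] [Algebra L S] [Algebra K S] [IsScalarTower K L S] {m : Type} [Fintype m] [DecidableEq m] (b : Module.Basis m L S) (B : Fin n → S)
    (f : FreeAlgebra K (Fin n)) :
    value (fun i => Algebra.leftMulMatrix b (B i)) f = Algebra.leftMulMatrix b (valueIn B f) := by
  have h : FreeAlgebra.lift K (fun i => Algebra.leftMulMatrix b (B i)) =
      ((Algebra.leftMulMatrix b).restrictScalars K).comp (FreeAlgebra.lift K B) := by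
    apply FreeAlgebra.hom_ext
    funext i
    simp
  exact DFunLike.congr_fun h f

/-- The map is injective on algebras of finite dimension. -/
theorem injectiveIn {K : Type} [Field K] {n : ℕ} {L : Type} [Field L] [Algebra K L]
    {S : Type} [Ring S] [Algebra L S] [Algebra K S] [IsScalarTower K L S] [FiniteDimensional L S]
    {φ : FreeAlgebra K (Fin n) →ₐ[K] FreeAlgebra K (Fin n)} (hφ : IsGood φ) :
    Function.Injective fun (B : Fin n → S) i => valueIn B (φ (gen K n i)) := by
  classical
  intro B B' h
  let b := Module.finBasis L S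
  have h1 := injective (L := L) hφ (d := Fin (Module.finrank L S))
    (a₁ := fun i => Algebra.leftMulMatrix b (B i)) (a₂ := fun i => Algebra.leftMulMatrix b (B' i)) (by
      funext i
      simp only [value_left]
      rw [show valueIn B (φ (gen K n i)) = valueIn B' (φ (gen K n i)) from congrFun h i])
  funext i
  exact Algebra.leftMulMatrix_injective b (congrFun h1 i)

/-- The map is surjective on algebras of finite dimension over algebraically closed fields. -/
theorem surjectiveIn {K : Type} [Field K] {n : ℕ} {L : Type} [Field L] [Algebra K L]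
    {S : Type} [Ring S] [Algebra L S] [Algebra K S] [IsScalarTower K L S] [FiniteDimensional L S]
    [IsAlgClosed L] {φ : FreeAlgebra K (Fin n) →ₐ[K] FreeAlgebra K (Fin n)}
    (hφ : IsGood φ) :
    Function.Surjective fun (B : Fin n → S) i => valueIn B (φ (gen K n i)) := by
  classical
  let m : Type := Fin (Module.finrank L S)
  let b : Module.Basis m L S := Module.finBasis L S
  let G : Fin n → Matrix m m (MvPolynomial (Fin n × m) L) := fun i =>
    ∑ k, (MvPolynomial.X (i, k) : MvPolynomial (Fin n × m) L) •
      (Algebra.leftMulMatrix b (b k)).map MvPolynomial.C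
  let ps : Fin n × m → MvPolynomial (Fin n × m) L := fun u =>
    ∑ l, value G (φ (gen K n u.1)) u.2 l * MvPolynomial.C (b.repr 1 l)
  let Bv : (Fin n × m → L) → Fin n → S := fun v i => b.equivFun.symm fun k => v (i, k)
  have hrepr : ∀ v i k, b.repr (Bv v i) k = v (i, k) := by
    intro v i k
    have h := congrFun (b.equivFun.apply_symm_apply fun k => v (i, k)) k
    rw [Module.Basis.equivFun_apply] at h
    exact h
  have hev : ∀ (v : Fin n × m → L) (u : Fin n × m), MvPolynomial.eval v (ps u) =
      b.repr (valueIn (Bv v) (φ (gen K n u.1))) u.2 := by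
    intro v u
    let σ : MvPolynomial (Fin n × m) L →ₐ[K] L := (MvPolynomial.aeval v).restrictScalars K
    have h1 := (dl_map σ G 0 (φ (gen K n u.1))).1
    have h2 : (fun i => (G i).map σ) = fun i => Algebra.leftMulMatrix b (Bv v i) := by
      funext i
      ext a c
      rw [Matrix.map_apply]
      change MvPolynomial.aeval v ((∑ k, (MvPolynomial.X (i, k) : MvPolynomial (Fin n × m) L) •
        (Algebra.leftMulMatrix b (b k)).map MvPolynomial.C : Matrix m m _) a c) =
        Algebra.leftMulMatrix b (b.equivFun.symm fun k => v (i, k)) a c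
      rw [Module.Basis.equivFun_symm_apply, map_sum, Matrix.sum_apply, Matrix.sum_apply, map_sum]
      refine Finset.sum_congr rfl fun k _ => ?_
      rw [Matrix.smul_apply, Matrix.map_apply, smul_eq_mul, map_mul, MvPolynomial.aeval_X,
        MvPolynomial.aeval_C, map_smul, Matrix.smul_apply, smul_eq_mul]
      rfl
    rw [h2, value_left] at h1
    have h3 := congrFun (Algebra.leftMulMatrix_mulVec_repr b
      (valueIn (Bv v) (φ (gen K n u.1))) 1) u.2
    rw [mul_one] at h3
    rw [← h3]
    change MvPolynomial.eval v (∑ l : m, value G (φ (gen K n u.1)) u.2 l *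
      MvPolynomial.C (b.repr 1 l)) = ∑ l : m,
      Algebra.leftMulMatrix b (valueIn (Bv v) (φ (gen K n u.1))) u.2 l * b.repr 1 l
    rw [map_sum]
    refine Finset.sum_congr rfl fun l _ => ?_
    rw [map_mul, MvPolynomial.eval_C, h1, Matrix.map_apply]
    rfl
  have hinj : Function.Injective fun (v : Fin n × m → L) u => MvPolynomial.eval v (ps u) := by
    intro v v' h
    have h1 := injectiveIn (L := L) hφ (a₁ := Bv v) (a₂ := Bv v') (by
      funext i
      refine b.repr.injective (Finsupp.ext fun k => ?_)
      have h2 := congrFun h (i, k)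
      simp only [hev] at h2
      exact h2)
    funext u
    rw [← hrepr v u.1 u.2, h1, hrepr]
  have hsur := ax_grothendieck_univ ps hinj
  intro D
  obtain ⟨v, hv⟩ := hsur fun u => b.repr (D u.1) u.2
  refine ⟨Bv v, ?_⟩
  funext i
  refine b.repr.injective (Finsupp.ext fun k => ?_)
  have h2 := congrFun hv (i, k)
  simp only [hev] at h2
  exact h2

end algebra

/-- The map is bijective on algebras of finite dimension over algebraically closed or finite
fields. -/
theorem bijectiveIn {K : Type} [Field K] {n : ℕ} {L : Type} [Field L] [Algebra K L]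
    {φ : FreeAlgebra K (Fin n) →ₐ[K] FreeAlgebra K (Fin n)} (hφ : IsGood φ)
    (hL : IsAlgClosed L ∨ Finite L)
    {S : Type} [Ring S] [Algebra L S] [Algebra K S] [IsScalarTower K L S] [FiniteDimensional L S] :
    Function.Bijective fun (B : Fin n → S) i => valueIn B (φ (gen K n i)) := by
  rcases hL with h | h
  · exact ⟨injectiveIn (L := L) hφ, surjectiveIn (L := L) hφ⟩
  · have : Finite S := Module.finite_of_finite L
    exact (Finite.injective_iff_bijective).1 (injectiveIn (L := L) hφ)

/-- The elements `B_i` are in the subalgebra generated by the values of the `φ (x_i)`. -/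
theorem mem_adjoin {K : Type} [Field K] {n : ℕ} {L : Type} [Field L] [Algebra K L]
    {φ : FreeAlgebra K (Fin n) →ₐ[K] FreeAlgebra K (Fin n)} (hφ : IsGood φ)
    (hL : IsAlgClosed L ∨ Finite L)
    {S : Type} [Ring S] [Algebra L S] [Algebra K S] [IsScalarTower K L S] [FiniteDimensional L S]
    (B : Fin n → S) (i : Fin n) :
    B i ∈ Algebra.adjoin L (Set.range fun j => valueIn B (φ (gen K n j))) := by
  let S' : Subalgebra L S := Algebra.adjoin L (Set.range fun j => valueIn B (φ (gen K n j)))
  have hC : ∀ j, valueIn B (φ (gen K n j)) ∈ S' := fun j =>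
    Algebra.subset_adjoin (Set.mem_range_self j)
  obtain ⟨A, hA⟩ := (bijectiveIn (K := K) hφ hL (S := S')).2 fun j => ⟨_, hC j⟩
  have h1 : (fun j => valueIn (fun k => (A k : S)) (φ (gen K n j))) =
      fun j => valueIn B (φ (gen K n j)) := by
    funext j
    have h2 : FreeAlgebra.lift K (fun k => (A k : S)) =
        ((S'.val).restrictScalars K).comp (FreeAlgebra.lift K A) := by
      apply FreeAlgebra.hom_ext
      funext k
      simp
    have h3 := DFunLike.congr_fun h2 (φ (gen K n j))
    have h4 := congrArg (fun y : S' => (y : S)) (congrFun hA j)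
    exact h3.trans h4
  have h5 := (injectiveIn (L := L) hφ (S := S)) h1
  rw [← show (A i : S) = B i from congrFun h5 i]
  exact (A i).2

open scoped TensorProduct in
/-- The same over arbitrary fields. -/
theorem mem_adjoin_all {K : Type} [Field K] {n : ℕ}
    {φ : FreeAlgebra K (Fin n) →ₐ[K] FreeAlgebra K (Fin n)} (hφ : IsGood φ)
    {L : Type} [Field L] [Algebra K L]
    {S : Type} [Ring S] [Algebra L S] [Algebra K S] [IsScalarTower K L S] [FiniteDimensional L S]
    (B : Fin n → S) (i : Fin n) :
    B i ∈ Algebra.adjoin L (Set.range fun j => valueIn B (φ (gen K n j))) := by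
  classical
  let Λ : Type := AlgebraicClosure L
  have hKL : ∀ c : K, algebraMap K Λ c = algebraMap L Λ (algebraMap K L c) := fun c =>
    IsScalarTower.algebraMap_apply K L (AlgebraicClosure L) c
  have hT : IsScalarTower K Λ (Λ ⊗[L] S) := inferInstance
  let S' : Subalgebra L S := Algebra.adjoin L (Set.range fun j => valueIn B (φ (gen K n j)))
  let B' : Fin n → Λ ⊗[L] S := fun j => (1 : Λ) ⊗ₜ[L] B j
  have hB' : ∀ f : FreeAlgebra K (Fin n), valueIn B' f = (1 : Λ) ⊗ₜ[L] valueIn B f := by
    intro f
    induction f with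
    | grade0 c =>
      rw [valueIn, valueIn, AlgHom.commutes, AlgHom.commutes]
      rw [IsScalarTower.algebraMap_apply K L S]
      rw [Algebra.TensorProduct.algebraMap_apply, hKL, Algebra.algebraMap_eq_smul_one (A := Λ),
        TensorProduct.smul_tmul, Algebra.algebraMap_eq_smul_one (A := S)]
    | grade1 j =>
      rw [valueIn, valueIn, FreeAlgebra.lift_ι_apply, FreeAlgebra.lift_ι_apply]
    | mul f g hf hg =>
      rw [valueIn, map_mul]
      change valueIn B' f * valueIn B' g = _
      rw [hf, hg, Algebra.TensorProduct.tmul_mul_tmul, one_mul]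
      congr 1
      exact (map_mul (FreeAlgebra.lift K B) f g).symm
    | add f g hf hg =>
      rw [valueIn, map_add]
      change valueIn B' f + valueIn B' g = _
      rw [hf, hg, ← TensorProduct.tmul_add]
      congr 1
      exact (map_add (FreeAlgebra.lift K B) f g).symm
  have h1 := mem_adjoin (K := K) (L := Λ) hφ (Or.inl inferInstance) B' i
  have h2 : Algebra.adjoin Λ (Set.range fun j => valueIn B' (φ (gen K n j))) ≤
      S'.baseChange Λ := by
    refine Algebra.adjoin_le ?_
    rintro _ ⟨j, rfl⟩
    change valueIn B' (φ (gen K n j)) ∈ _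
    rw [hB']
    exact Subalgebra.tmul_mem_baseChange (Algebra.subset_adjoin (Set.mem_range_self j)) 1
  have h3 := h2 h1
  by_contra hne
  obtain ⟨lam, hlam, hker⟩ := Submodule.exists_le_ker_of_notMem (p := S'.toSubmodule)
    (show B i ∉ S'.toSubmodule from hne)
  obtain ⟨z, hz⟩ := h3
  have h4 : (LinearMap.lTensor Λ lam) (B' i) = 0 := by
    rw [← hz]
    change (LinearMap.lTensor Λ lam) ((LinearMap.lTensor Λ S'.val.toLinearMap) z) = 0
    rw [← LinearMap.comp_apply, ← LinearMap.lTensor_comp]
    have h5 : lam ∘ₗ S'.val.toLinearMap = 0 := by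
      ext x
      exact hker x.2
    rw [h5, LinearMap.lTensor_zero, LinearMap.zero_apply]
  rw [LinearMap.lTensor_tmul] at h4
  have h6 := congrArg (TensorProduct.rid L Λ) h4
  rw [TensorProduct.rid_tmul, map_zero, smul_eq_zero] at h6
  rcases h6 with h6 | h6
  · exact hlam h6
  · exact one_ne_zero h6

/-- **Good endomorphisms are bijective on algebras of finite dimension.** -/
theorem result {K : Type} [Field K] {n : ℕ}
    (φ : FreeAlgebra K (Fin n) →ₐ[K] FreeAlgebra K (Fin n)) (hφ : IsGood φ)
    (L : Type) [Field L] [Algebra K L] :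
    (∀ (d : ℕ) (B : Fin n → Matrix (Fin d) (Fin d) L),
      (jac B φ).det = (jac (0 : Fin n → Matrix (Fin d) (Fin d) L) φ).det ∧
        (jac B φ).det ≠ 0) ∧
    ∀ (S : Type) [Ring S] [Algebra L S] [Algebra K S] [IsScalarTower K L S]
      [FiniteDimensional L S],
      Function.Injective (fun (B : Fin n → S) i => valueIn B (φ (gen K n i))) ∧
      (∀ (B : Fin n → S) (i : Fin n),
        B i ∈ Algebra.adjoin L (Set.range fun j => valueIn B (φ (gen K n j)))) ∧
      (IsAlgClosed L ∨ Finite L →
        Function.Bijective (fun (B : Fin n → S) i => valueIn B (φ (gen K n i)))) :=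
  ⟨fun _ B => det_jac hφ B, fun S _ _ _ _ _ => ⟨injectiveIn (L := L) hφ, mem_adjoin_all hφ,
    fun hL => bijectiveIn hφ hL⟩⟩

end Pool.Agent.Results.MP_54c2ef_al.BijectiveOnMatrices
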